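import Pool.Agent.N671.DA.Tup
import Pool.Agent.Results.MP_c9768e_nt.GrowingDegreeTuples

/-!
# Elliptic logarithms, their quasi-logarithms and logarithms at the best approximation vectors of systems of linear forms

Let `L` be a lattice with rational invariants, `ω_0 = 1, ω_1, …, ω_m` algebraic numbers (for instance an integral basis of a
number field) and `θ_1, …, θ_r` distinct natural numbers. Let `A` be a real matrix with `k (m + 1)` rows and `h` columns, `β`
in `ℝ^h` and `τ > 0`. We consider the integer vectors `v = (v_{il})` with `k (m + 1)` coordinates such that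
`‖(v A)_j - β_j‖ ≤ c |v| ^ (-τ)` for `j = 1, …, h`, `‖x‖` the distance to the nearest integer and `|v|` the maximum norm; for
`β = 0`, `c = 1` and `τ = k (m + 1) / h` they include all best approximation vectors of the system of linear forms `v A`, by
the theorem of Minkowski. We show that for all `A` outside a set of Hausdorff dimension at most
`(k (m + 1) - 1) h + (h + k (m + 1) - 1 / (δ + 2)^C) / (1 + τ)`, which is less than `k (m + 1) h` for `τ = k (m + 1) / h`, and
so for almost all `A`, the following is true for all large `v` of this kind and the algebraic numbers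
`α_i = ∑_l v_{il} ω_l`: all elliptic logarithms `p` with `℘(p) = α_i + θ_j`, the numbers `ζ(p)` and all logarithms of the
`α_i + θ_j` satisfy with the given numbers `w` no nontrivial relation of degree at most `δ` over any number field of degree
at most `δ`.

The best approximation vectors are a very sparse sequence, about `log T` vectors of norm at most `T`, and so this does not
follow from the size of the exceptional set, which is only smaller than `T^(k (m + 1))` by a factor `T^c` with a small
positive `c`.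

Proof. The starting theorem `GrowingDegreeTuples` of this problem bounds the number of the exceptional vectors by
`C T^(k (m + 1) - c)`. The matrices `A` with `‖(v A)_j - β_j‖ ≤ c |v| ^ (-τ)` form neighbourhoods of parallel affine
subspaces, covered by cubes of side `|v| ^ (-1 - τ)` (`Pool.Agent.N671.DA`).
-/

set_option autoImplicit false

open scoped PeriodPair

namespace Pool.Agent.Results.MP_c9768e_nt.BestApproximations

open Pool.Agent.N671.DA (Near Thin thin_of_nat approx_vectors)
open Pool.Agent.Results.MP_c9768e_nt.GrowingDegreeTuples (Related)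

/-- the `k`-tuple of vectors with `m + 1` coordinates with the coordinates of `v` -/
def tuple {k m : ℕ} (v : Fin (k * (m + 1)) → ℤ) : Fin k → Fin (m + 1) → ℤ := fun i l => v (finProdFinEquiv (i, l))

/-- **Elliptic logarithms, quasi-logarithms and logarithms at the best approximation vectors.** Let `L` be a lattice with
rational invariants `g₂`, `g₃`, let `ω_0 = 1, ω_1, …, ω_m` be algebraic numbers (for instance an integral basis of a number
field), `θ_1, …, θ_r` distinct natural numbers, and `k ≥ 1` and `Q` natural numbers. There is `C` such that for all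
`w_1, …, w_Q ∈ ℂ`, `β ∈ ℝ^h`, `τ > 0` and `δ`, for all real matrices `A` with `k (m + 1)` rows and `h` columns outside a set
of Hausdorff dimension at most `(k (m + 1) - 1) h + (h + k (m + 1) - 1 / (δ + 2)^C) / (1 + τ)` and all `c`, for all large
integer vectors `v` with `‖(v A)_j - β_j‖ ≤ c |v| ^ (-τ)` for all `j`, the `k`-tuple of vectors with the coordinates of `v`
is not related. -/
theorem result (L : PeriodPair) (a b : ℚ) (ha : L.g₂ = a) (hb : L.g₃ = b) {m r : ℕ} (ω : Fin (m + 1) → ℂ)
    (hω : ∀ j, IsAlgebraic ℚ (ω j)) (hω0 : ω 0 = 1) (θ : Fin r → ℕ) (hθ : Function.Injective θ) (k Q : ℕ) (hk : 1 ≤ k) :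
    ∃ C : ℕ, ∀ (w : Fin Q → ℂ) (h : ℕ) (β : Fin h → ℝ) (τ : ℝ), 0 < τ → ∀ δ : ℕ,
      ∃ E : Set (Fin (k * (m + 1)) × Fin h → ℝ),
        dimH E ≤ ENNReal.ofReal ((((k * (m + 1) : ℕ) : ℝ) - 1) * h +
          (h + (((k * (m + 1) : ℕ) : ℝ) - 1 / ((δ : ℝ) + 2) ^ C)) / (1 + τ)) ∧
        ∀ A, A ∉ E → ∀ c : ℝ, ∃ Q₀ : ℝ, ∀ v : Fin (k * (m + 1)) → ℤ, Q₀ ≤ ‖v‖ → Near A β v (c * ‖v‖ ^ (-τ)) →
          ¬ Related L δ w ω θ (tuple (m := m) v) := by
  obtain ⟨C, hC⟩ := GrowingDegreeTuples.result L a b ha hb ω hω hω0 θ hθ k Q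
  refine ⟨C, fun w h β τ hτ δ => ?_⟩
  have hK : 1 ≤ k * (m + 1) := Nat.one_le_iff_ne_zero.2 (by positivity)
  have hK1 : (1 : ℝ) ≤ ((k * (m + 1) : ℕ) : ℝ) := by exact_mod_cast hK
  have hc1 : 1 / ((δ : ℝ) + 2) ^ C ≤ 1 := by
    rw [div_le_one (by positivity)]
    have : (0 : ℝ) ≤ δ := Nat.cast_nonneg δ
    exact one_le_pow₀ (by linarith)
  obtain ⟨W, hW⟩ : ∃ W : Set (Fin (k * (m + 1)) → ℤ), W = {v | Related L δ w ω θ (tuple (m := m) v)} := ⟨_, rfl⟩
  have hT : Thin W (((k * (m + 1) : ℕ) : ℝ) - 1 / ((δ : ℝ) + 2) ^ C) := by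
    refine thin_of_nat (C₀ := (C : ℝ)) (by linarith) fun X hX => ?_
    obtain ⟨hf, hle⟩ := hC δ w X hX
    refine le_trans ?_ hle
    have hsub : tuple (m := m) '' {v : Fin (k * (m + 1)) → ℤ | (∀ t, |v t| ≤ (X : ℤ)) ∧ v ∈ W} ⊆
        {n : Fin k → Fin (m + 1) → ℤ | (∀ i l, |n i l| ≤ X) ∧ Related L δ w ω θ n} := by
      rintro _ ⟨v, ⟨hv1, hv2⟩, rfl⟩
      rw [hW] at hv2
      exact ⟨fun i l => hv1 _, hv2⟩
    have hinj : Function.Injective (tuple (k := k) (m := m)) := by
      intro u v huv
      funext t
      have := congrFun (congrFun huv (finProdFinEquiv.symm t).1) (finProdFinEquiv.symm t).2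
      simpa only [tuple, Prod.mk.eta, Equiv.apply_symm_apply] using this
    have h2 := Set.ncard_le_ncard hsub hf
    rw [Set.ncard_image_of_injective _ hinj] at h2
    exact_mod_cast h2
  obtain ⟨E, hE, hE2⟩ := approx_vectors hK W (by linarith) hT β hτ
  refine ⟨E, hE, fun A hA c => ?_⟩
  obtain ⟨Q₀, hQ⟩ := hE2 A hA c
  refine ⟨Q₀, fun v hv h1 => ?_⟩
  have h2 := hQ v hv h1
  rw [hW] at h2
  exact h2

end Pool.Agent.Results.MP_c9768e_nt.BestApproximations
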