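import Pool.Agent.N207.AX.Conj
import Pool.Agent.N207.AX.Exp
import Pool.Agent.N207.AX.Ell
import Pool.Agent.N227.CF.Low
import Pool.Agent.N878.AX.LINE
import Pool.Agent.N301.AX.IND
import Pool.Agent.N945.AX.ELL

/-!
# Logarithms and elliptic logarithms of all conjugates of the points of families over a number field

Let `K` be a number field, `S` a variety over `K` with coordinates in the affine space `A ^ X`, `E_1, …, E_q` elliptic
curves over `K`, pairwise not isogenous over the complex numbers, and consider `a` points of `G_m(S)` and `n` points of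
the `E_c(S)`, independent modulo constants. At a point `s` of `S(K)` we get algebraic points on `G_m` and the `E_c`, and
their conjugates for all embeddings `φ` of `K`. The conjecture on split semi-elliptic logarithms says that, for each `φ`,
the logarithms and elliptic logarithms of these points are algebraically independent (if they are linearly independent);
it also considers numbers `p` outside the lattice with algebraic `ζ(p)` instead of `℘(p)`. We show that for 100 percent
of the points `s` with given denominators the `a [K : ℚ]` logarithms, the `n [K : ℚ]` elliptic logarithms and the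
`n [K : ℚ]` numbers `ζ(p)` (or `℘(p)`, if `ζ(p)` is algebraic) for all embeddings together have no relation of growing
degree and height.
-/

set_option autoImplicit false

open Filter NumberField
open scoped PeriodPair

namespace Pool.Agent.Results.MP_c9768e_nt.ConjugateSemiElliptic

/-- The Weierstrass zeta function `ζ(z) = ∑ (1/(z-l) + 1/l + z/l²)`, the sum over the lattice (the summand of
`l = 0` is `1/z`, since `1/0 = 0` in Lean). -/
noncomputable def ζ (L : PeriodPair) (z : ℂ) : ℂ :=
  ∑' l : L.lattice, (1 / (z - l) + 1 / l + z / l ^ 2)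

/-- `f` satisfies on `U` a polynomial equation over the polynomials in the coordinates -/
def Algebraic {X : Type} (U : Set (X → ℂ)) (f : (X → ℂ) → ℂ) : Prop :=
  ∃ Q : Polynomial (MvPolynomial X ℂ), Q ≠ 0 ∧ ∀ z ∈ U, Q.eval₂ (MvPolynomial.eval z) (f z) = 0

/-- Analytic functions `t_1, …, t_a` and `p_1, …, p_n` of several variables, the `p_i` with values outside one of the
lattices `Ω c`, its type; the lattices `Ω c` have pairwise no homomorphisms. The `exp(t_l)` are algebraic functions, and
`℘(p_i)` (if `kind i = true`) or `ζ(p_i)` (if `kind i = false`) is algebraic. No nontrivial combination with integral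
coefficients of the `t_l`, and for each `c` no nontrivial combination of the `p_i` of type `c` with coefficients in the
ring of the endomorphisms of `ℂ / Ω c`, is constant. -/
structure Family {X : Type} [Fintype X] {q a n : ℕ} (U : Set (X → ℂ)) (Ω : Fin q → PeriodPair) (ty : Fin n → Fin q)
    (kind : Fin n → Bool) (t : Fin a → (X → ℂ) → ℂ) (p : Fin n → (X → ℂ) → ℂ) : Prop where
  isOpen : IsOpen U
  isPreconnected : IsPreconnected U
  nonempty : U.Nonempty
  noHom : ∀ c c', c ≠ c' → ∀ α : ℂ, (∀ w ∈ (Ω c).lattice, α * w ∈ (Ω c').lattice) → α = 0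
  analytic_t : ∀ l, AnalyticOnNhd ℂ (t l) U
  analytic_p : ∀ i, AnalyticOnNhd ℂ (p i) U
  notMem : ∀ i, ∀ z ∈ U, p i z ∉ (Ω (ty i)).lattice
  algebraic_exp : ∀ l, Algebraic U (fun z => Complex.exp (t l z))
  algebraic_wp : ∀ i, kind i = true → Algebraic U (fun z => ℘[Ω (ty i)] (p i z))
  algebraic_zeta : ∀ i, kind i = false → Algebraic U (fun z => ζ (Ω (ty i)) (p i z))
  independent_t : ∀ (m : Fin a → ℤ) (b : ℂ), (∀ z ∈ U, ∑ l, (m l : ℂ) * t l z = b) → m = 0
  independent_p : ∀ (c : Fin q) (u : Fin n → ℂ) (b : ℂ), (∀ i, ∀ w ∈ (Ω c).lattice, u i * w ∈ (Ω c).lattice) →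
    (∀ i, ty i ≠ c → u i = 0) → (∀ z ∈ U, ∑ i, u i * p i z = b) → u = 0

/-- The `a + 2 n` functions: `t_l`, `p_i`, and `ζ(p_i)` if `kind i = true`, `℘(p_i)` if `kind i = false` -/
noncomputable def value {X : Type} {q a n : ℕ} (Ω : Fin q → PeriodPair) (ty : Fin n → Fin q) (kind : Fin n → Bool)
    (t : Fin a → (X → ℂ) → ℂ) (p : Fin n → (X → ℂ) → ℂ) : Fin a ⊕ (Fin n ⊕ Fin n) → (X → ℂ) → ℂ
  | Sum.inl l, z => t l z
  | Sum.inr (Sum.inl i), z => p i z
  | Sum.inr (Sum.inr i), z => if kind i then ζ (Ω (ty i)) (p i z) else ℘[Ω (ty i)] (p i z)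

/-- the points of norm at most `k` at distance at least `1 / k` from the complement of `U` -/
def Inner {X : Type} [Fintype X] (U : Set (X → ℂ)) (k : ℕ) : Set (X → ℂ) := {z | ‖z‖ ≤ k ∧ Metric.ball z (k : ℝ)⁻¹ ⊆ U}

/-- the points with integral coordinates in `K` all of whose conjugates are at most `T` in absolute value -/
def Points (K X : Type) [Field K] [NumberField K] (T : ℝ) : Set (X → 𝓞 K) := {a | ∀ j, house (a j : K) ≤ T}

variable {K X : Type} [Field K] [NumberField K] [Fintype X]

/-- **The exceptional points**: `s` in `K ^ X`, all of whose conjugates `φ s` are in the compact sets `Inner (U φ) k`,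
such that some nonzero polynomial `R` of partial degrees at most `k`, whose coefficients are combinations `∑ ξ i * c i`
with integers `c i` of `L` all of whose conjugates are at most `T ^ k`, vanishes at the numbers `f φ y (φ s)`, `φ`
running through the embeddings of `K` -/
def Exceptional {σ : Type} (U : (K →+* ℂ) → Set (X → ℂ)) (f : (K →+* ℂ) → σ → (X → ℂ) → ℂ) (L : Type) [Field L]
    [NumberField L] (io : L →+* ℂ) (k : ℕ) (ξ : Fin k → ℂ) (T : ℝ) : Set (X → K) :=
  {s | (∀ φ : K →+* ℂ, (fun j => φ (s j)) ∈ Inner (U φ) k) ∧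
    ∃ R : MvPolynomial ((K →+* ℂ) × σ) ℂ, R ≠ 0 ∧ (∀ y, R.degreeOf y ≤ k) ∧
    (∀ m, ∃ c : Fin k → 𝓞 L, (∀ i (φ : L →+* ℂ), ‖φ (c i : L)‖ ≤ T ^ (k : ℝ)) ∧
      R.coeff m = ∑ i, ξ i * io (c i : L)) ∧
    MvPolynomial.eval (fun q => f q.1 q.2 fun j => q.1 (s j)) R = 0}

/-- the `a + 2 n` functions are algebraically independent over the rational functions -/
theorem independent (hEll : N207.AX.StmEll) {q a n : ℕ} {U : Set (X → ℂ)} {Ω : Fin q → PeriodPair} {ty : Fin n → Fin q}
    {kind : Fin n → Bool} {t : Fin a → (X → ℂ) → ℂ} {p : Fin n → (X → ℂ) → ℂ} (h : Family U Ω ty kind t p) :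
    N207.AX.Ind U (value Ω ty kind t p) := by
  obtain ⟨e, he, hI⟩ := hEll X q n a U Ω ty p t h.isOpen h.isPreconnected h.nonempty h.noHom h.analytic_p h.notMem
    h.independent_p h.analytic_t h.independent_t
  let B : Fin a ⊕ (Fin n ⊕ Fin n) → Y776.Cv.Nf n a := fun y => match y with
    | Sum.inl l => Sum.inl l
    | Sum.inr (Sum.inl i) => Sum.inr (Sum.inr (Sum.inl i))
    | Sum.inr (Sum.inr i) => if kind i then Sum.inr (Sum.inr (Sum.inr (Sum.inl i))) else
        Sum.inr (Sum.inr (Sum.inr (Sum.inr i)))
  have hB : ∀ y, N207.AX.ye Ω ty p t (B y) = value Ω ty kind t p y := by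
    rintro (l | i | i)
    · rfl
    · rfl
    · funext z
      by_cases hk : kind i = true
      · simp only [B, value, hk, if_true]
        rfl
      · simp only [B, value, hk]
        rfl
  have hcard : Fintype.card (Fin (a + 2 * n)) = Fintype.card (Fin a ⊕ (Fin n ⊕ Fin n)) := by
    simp only [Fintype.card_fin, Fintype.card_sum]
    ring
  let g : Fin (a + 2 * n) ≃ Fin a ⊕ (Fin n ⊕ Fin n) := Fintype.equivOfCardEq hcard
  have h1 := N207.AX.exch (f := N207.AX.ye Ω ty p t) (b := fun k => B (g k)) he hI (by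
    rintro (l | l | i | i | i)
    · exact Or.inl ⟨g.symm (Sum.inl l), by simp [B]⟩
    · exact Or.inr (h.algebraic_exp l)
    · exact Or.inl ⟨g.symm (Sum.inr (Sum.inl i)), by simp [B]⟩
    · by_cases hk : kind i = true
      · exact Or.inl ⟨g.symm (Sum.inr (Sum.inr i)), by simp [B, hk]⟩
      · exact Or.inr (h.algebraic_zeta i (by simpa using hk))
    · by_cases hk : kind i = true
      · exact Or.inr (h.algebraic_wp i hk)
      · exact Or.inl ⟨g.symm (Sum.inr (Sum.inr i)), by simp [B, hk]⟩)
  have h2 := h1.comp g.symm.injective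
  have h3 : (fun k => N207.AX.ye Ω ty p t (B (g (g.symm k)))) = value Ω ty kind t p := by
    funext k
    rw [g.apply_symm_apply, hB]
  rw [h3] at h2
  exact h2

/-- **The logarithms and elliptic logarithms of all conjugates at almost all points.** Let `K` be a number field and
let a family of `a` logarithms and `n` elliptic logarithms as above be given for every complex embedding `φ` of `K`.

There are `ω → ∞` and `C` such that for all large `T`, all number fields `L` of degree at most `ω T`, with an embedding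
in the complex numbers such that `L` contains all conjugates of `K`, all complex numbers `ξ i`, `i < ω T`, and all
integral points `b` of `K` of house at most `T` with nonzero coordinates, the proportion of the integral points `x` of
`K` of house at most `T` such that `x / b` is exceptional is at most `C T ^ (-1 + 2 / ω T)`. So for 100 percent of the
points `s = x / b` the `(a + 2 n) [K : ℚ]` numbers have no nonzero polynomial relation of growing degree and height,
relative to arbitrary constants. -/
theorem result (K X : Type) [Field K] [NumberField K] [Fintype X] [DecidableEq X] [Nonempty X]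
    (q a n : ℕ) (U : (K →+* ℂ) → Set (X → ℂ)) (Ω : (K →+* ℂ) → Fin q → PeriodPair) (ty : Fin n → Fin q)
    (kind : Fin n → Bool) (t : (K →+* ℂ) → Fin a → (X → ℂ) → ℂ) (p : (K →+* ℂ) → Fin n → (X → ℂ) → ℂ)
    (h : ∀ φ, Family (U φ) (Ω φ) ty kind (t φ) (p φ)) :
    ∃ (ω : ℝ → ℕ) (C T₀ : ℝ), Tendsto ω atTop atTop ∧ Monotone ω ∧ ∀ T, T₀ ≤ T → 0 < ω T ∧
      (Points K X T).Finite ∧ (Points K X T).Nonempty ∧
      ∀ (L : Type) [Field L] [NumberField L], Module.finrank ℚ L ≤ ω T → ∀ io : L →+* ℂ,
        (∀ φ : K →+* ℂ, ∃ φ' : K →+* L, io.comp φ' = φ) →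
        ∀ (ξ : Fin (ω T) → ℂ), ∀ b ∈ Points K X T, (∀ j, b j ≠ 0) →
          ({x ∈ Points K X T | (fun j => (x j : K) / (b j : K)) ∈
              Exceptional U (fun φ => value (Ω φ) ty kind (t φ) (p φ)) L io (ω T) ξ T}.ncard : ℝ) ≤
            C * T ^ (-1 + 2 / (ω T : ℝ)) * (Points K X T).ncard := by
  classical
  have han : ∀ (φ : K →+* ℂ) (y : Fin a ⊕ (Fin n ⊕ Fin n)),
      AnalyticOnNhd ℂ (value (Ω φ) ty kind (t φ) (p φ) y) (U φ) := by
    intro φ y
    rcases y with l | i | i
    · exact (h φ).analytic_t l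
    · exact (h φ).analytic_p i
    · by_cases hk : kind i = true
      · have h1 : value (Ω φ) ty kind (t φ) (p φ) (Sum.inr (Sum.inr i)) =
            N207.AX.yq (Ω φ) ty (p φ) (Sum.inr (Sum.inl i)) := by
          funext z
          simp only [value, hk, if_true]
          rfl
        rw [h1]
        exact N207.AX.yq_an (h φ).analytic_p (h φ).notMem _
      · have h1 : value (Ω φ) ty kind (t φ) (p φ) (Sum.inr (Sum.inr i)) =
            N207.AX.yq (Ω φ) ty (p φ) (Sum.inr (Sum.inr i)) := by
          funext z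
          simp only [value, hk]
          rfl
        rw [h1]
        exact N207.AX.yq_an (h φ).analytic_p (h φ).notMem _
  obtain ⟨c, C₁, hc, hC₁, hlow⟩ := N227.CF.low K X
  obtain ⟨ω, C, T₀, hC, h1, h2, h3⟩ := N207.AX.conj_ind (fun φ => (h φ).isPreconnected)
    (fun φ => (h φ).isOpen) (fun φ => (h φ).nonempty) han (fun φ => independent (N945.AX.ell (N301.AX.ind N878.AX.line)) (h φ))
  refine ⟨ω, C / c, max T₀ 1, h1, h2, fun T hT => ⟨(h3 T ((le_max_left _ _).trans hT)).1, ?_, ?_, ?_⟩⟩
  · exact (hlow T ((le_max_right _ _).trans hT)).1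
  · refine ⟨0, fun j => ?_⟩
    have h5 : ((0 : X → 𝓞 K) j : K) = 0 := by simp
    have h6 : house (0 : K) = 0 := by simp [house]
    rw [h5, h6]
    exact zero_le_one.trans ((le_max_right _ _).trans hT)
  · intro L _ _ hL io hemb ξ b hb hb0
    have hT1 : 1 ≤ T := (le_max_right _ _).trans hT
    have hTp : 0 < T := by linarith
    obtain ⟨-, h4⟩ := (h3 T ((le_max_left _ _).trans hT)).2 L hL io hemb ξ b (fun j => ⟨hb0 j, hb j⟩)
    obtain ⟨-, h5, -⟩ := hlow T hT1
    have h6 : ({x ∈ Points K X T | (fun j => (x j : K) / (b j : K)) ∈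
              Exceptional U (fun φ => value (Ω φ) ty kind (t φ) (p φ)) L io (ω T) ξ T}.ncard : ℝ) ≤
        C * T ^ ((Module.finrank ℚ K * Fintype.card X : ℝ) - 1 + 2 * ((ω T : ℝ)⁻¹)) := h4
    refine h6.trans ?_
    have h7 : (T : ℝ) ^ ((Module.finrank ℚ K * Fintype.card X : ℝ) - 1 + 2 * ((ω T : ℝ)⁻¹)) =
        T ^ (-1 + 2 / (ω T : ℝ)) * T ^ (Module.finrank ℚ K * Fintype.card X) := by
      rw [← Real.rpow_natCast T (Module.finrank ℚ K * Fintype.card X), ← Real.rpow_add hTp]
      congr 1
      push_cast
      ring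
    rw [h7]
    have h8 : T ^ (Module.finrank ℚ K * Fintype.card X) ≤ ((Points K X T).ncard : ℝ) / c := by
      rw [le_div_iff₀ hc, mul_comm]
      exact h5
    calc C * (T ^ (-1 + 2 / (ω T : ℝ)) * T ^ (Module.finrank ℚ K * Fintype.card X)) ≤
          C * (T ^ (-1 + 2 / (ω T : ℝ)) * (((Points K X T).ncard : ℝ) / c)) :=
          mul_le_mul_of_nonneg_left (mul_le_mul_of_nonneg_left h8 (by positivity)) hC
      _ = _ := by ring

end Pool.Agent.Results.MP_c9768e_nt.ConjugateSemiElliptic
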