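import Pool.Agent.N84.MD.D
import Pool.Agent.Results.MP_c9768e_nt.LogsAndEllipticLogs

/-!
# Logarithms, elliptic logarithms and quasi-logarithms at all rational approximations of almost every real tuple

The problem: for a lattice with algebraic invariants, numbers `t_l` with `exp (t_l)` algebraic and numbers `p_i` with
`℘ (p_i)` or `ζ (p_i)` algebraic should be algebraically independent, provided that they are linearly independent over `ℚ`
and over the endomorphism field, respectively. Let `g₂`, `g₃` be real numbers (for instance algebraic ones),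
`u(t) = ∫_c^t ds / √(4 s ^ 3 - g₂ s - g₃)`, `v(t) = ∫_c^t s ds / √(4 s ^ 3 - g₂ s - g₃)` the elliptic logarithm and the
quasi-logarithm (`℘ (u(t) + u₀) = t` for a constant `u₀`, and `v(t) = - ζ (u(t) + u₀) + constant`), and let `x_1, …, x_r` be
distinct real numbers (for instance algebraic ones).

We prove that for all real `n`-tuples `y`, up to a set of Hausdorff dimension less than `n`, for ALL large `T` and ALL
rational `n`-tuples `q` with denominators at most `T` and `|y_j - q_j| ≤ T ^ (-τ)`, where `τ = 2` or even somewhat smaller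
(for `τ < 2` and almost all `y` there are such tuples for every large `T`: convergents of the `y_j`), the numbers `π`,
`u(q_l)`, `v(q_l)`, `log (q_l + x_i)` satisfy no polynomial relation, even approximately, of bounded degree with integer
coefficients at most `T ^ A`. So the rational tuples considered are very sparse (for `n = 1` the number of convergents of `y`
with denominator at most `T` is `O(log T)`), and there is no exception from some point on.

Proof: the starting theorem `LogsAndEllipticLogs` of this problem bounds the number of the exceptional tuples with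
denominators at most `T`; the Hausdorff-Cantelli lemma (`Pool.Agent.N84.MD`).
-/

set_option autoImplicit false

open Set Filter MeasureTheory
open scoped ENNReal

namespace Pool.Agent.Results.MP_c9768e_nt.ConvergentsOfRealTuples

open Pool.Agent.Results.MP_c9768e_nt.LogsAndEllipticLogs (cubic numbers Exceptional)

/-- No nonzero polynomial with integer coefficients of absolute value at most `T ^ A`, of degree at most `d` in each
variable, takes at the `1 + n (r + 2)` numbers `π`, `u(q_l)`, `v(q_l)` and `log (q_l + x_i)` a value of absolute value at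
most `T ^ (-B)`. -/
def Unrelated {n r : ℕ} (d : ℕ) (g₂ g₃ c : ℝ) (x : Fin r → ℝ) (A B T : ℝ) (q : Fin n → ℚ) : Prop :=
  ∀ P : MvPolynomial (Option (Fin n × (Fin 2 ⊕ Fin r))) ℤ, P ≠ 0 → (∀ z, P.degreeOf z ≤ d) →
    (∀ e, |((P.coeff e : ℤ) : ℝ)| ≤ T ^ A) → T ^ (-B) < |MvPolynomial.aeval (numbers g₂ g₃ c x q) P|

/-- For all large `T` all rational tuples `q` with coordinates in `[a, b]`, denominators at most `T` and
`|y_j - q_j| ≤ T ^ (-τ)` are unrelated at the scale `T`. -/
def AllApproximations {n r : ℕ} (d : ℕ) (g₂ g₃ c : ℝ) (x : Fin r → ℝ) (a b A B τ : ℝ) (y : Fin n → ℝ) : Prop :=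
  ∀ᶠ T : ℝ in atTop, ∀ q : Fin n → ℚ,
    (∀ j, (q j : ℝ) ∈ Icc a b ∧ ((q j).den : ℝ) ≤ T ∧ |y j - q j| ≤ T ^ (-τ)) → Unrelated d g₂ g₃ c x A B T q

/-- Let `g₂`, `g₃` be real numbers such that `4 X ^ 3 - g₂ X - g₃` is square-free and positive on `[a, b]`, `a < b`, let
`c` be in `[a, b]`, and let `x_1, …, x_r` be distinct real numbers with `a + x_i > 0`. Let `n ≥ 1`, `d`, `A ≥ 0` and
`β > 2 - 2 / ((d + 1) ^ ((r + 2) n + 1) + 1)`. There is `B` such that for all `τ > 0` the property `AllApproximations` holds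
for all `y` in `ℝⁿ` but a set of Hausdorff dimension at most `(2 (n - 1) + β) / τ`. For `β < 2` and `τ = 2`, and for some
smaller `τ` also, it holds for almost all `y`. -/
theorem result {r : ℕ} (n d : ℕ) (hn : 1 ≤ n) (g₂ g₃ : ℝ) (hf : Squarefree (cubic g₂ g₃)) (a b c : ℝ) (hab : a < b)
    (hpos : ∀ t : ℝ, a ≤ t → t ≤ b → 0 < 4 * t ^ 3 - g₂ * t - g₃) (hc : a ≤ c ∧ c ≤ b) (x : Fin r → ℝ)
    (hx : Function.Injective x) (hxa : ∀ i, 0 < a + x i) (A β : ℝ) (hA : 0 ≤ A)
    (hβ : 2 - 2 / (((d : ℝ) + 1) ^ ((r + 2) * n + 1) + 1) < β) :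
    ∃ B : ℝ, ∀ τ : ℝ, 0 < τ →
      dimH {y : Fin n → ℝ | ¬ AllApproximations d g₂ g₃ c x a b A B τ y} ≤
        ENNReal.ofReal ((2 * ((n : ℝ) - 1) + β) / τ) ∧
      (2 * ((n : ℝ) - 1) + β < τ * n → ∀ᵐ y : Fin n → ℝ, AllApproximations d g₂ g₃ c x a b A B τ y) := by
  obtain ⟨B, C, h⟩ := Pool.Agent.Results.MP_c9768e_nt.LogsAndEllipticLogs.result n d hn g₂ g₃ hf a b c hab hpos hc x hx
    hxa A β hA hβ
  have hn1 : (1 : ℝ) ≤ n := by exact_mod_cast hn
  have hβ0 : 0 ≤ β := by
    have h1 : 2 / (((d : ℝ) + 1) ^ ((r + 2) * n + 1) + 1) ≤ 2 := by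
      rw [div_le_iff₀ (by positivity)]
      have : (0 : ℝ) ≤ ((d : ℝ) + 1) ^ ((r + 2) * n + 1) := by positivity
      linarith
    linarith
  have hs : 0 ≤ 2 * ((n : ℝ) - 1) + β := by linarith
  refine ⟨max B 0 + 1, fun τ hτ => ?_⟩
  obtain ⟨T₀, hT₀1, hT₀⟩ := Pool.Agent.N84.MD.scale_value (B := B)
  have hdim := Pool.Agent.N84.MD.scales (X := Fin n) (S := Fin n → ℚ) (fun q j => (q j : ℝ))
    (fun T => Exceptional n d g₂ g₃ c x a b A (max B 0 + 1) T) (fun T => Exceptional n d g₂ g₃ c x a b A B T) hs hτ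
    ⟨T₀, fun T T' hT h1 h2 q hq => by
      obtain ⟨h3, P, h4, h5, h6, h7⟩ := hq
      have hT1 : 1 ≤ T := hT₀1.trans hT
      exact ⟨fun j => ⟨(h3 j).1, (h3 j).2.1, (h3 j).2.2.trans h1⟩, P, h4, h5, fun e => (h6 e).trans
        (Real.rpow_le_rpow (by linarith) h1 hA), h7.trans (hT₀ T T' hT h1 h2)⟩⟩
    ⟨C, h⟩
  have hsub : {y : Fin n → ℝ | ¬ AllApproximations d g₂ g₃ c x a b A (max B 0 + 1) τ y} ⊆
      {y : Fin n → ℝ | ¬ ∀ᶠ T : ℝ in atTop, ∀ e ∈ Exceptional n d g₂ g₃ c x a b A (max B 0 + 1) T,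
        ¬ ∀ i, |y i - (fun (q : Fin n → ℚ) j => (q j : ℝ)) e i| ≤ T ^ (-τ)} := by
    intro y hy hy2
    apply hy
    filter_upwards [hy2] with T hT q hq P hP hd hco
    by_contra hcon
    push Not at hcon
    exact hT q ⟨fun j => ⟨(hq j).1.1, (hq j).1.2, (hq j).2.1⟩, P, hP, hd, hco, hcon⟩ (fun j => (hq j).2.2)
  have hdim2 := le_trans (dimH_mono hsub) hdim
  refine ⟨hdim2, fun hlt => ?_⟩
  rw [ae_iff]
  refine Pool.Agent.N84.MD.null_of_dim hdim2 (by positivity) ?_
  rw [div_lt_iff₀ hτ]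
  linarith

end Pool.Agent.Results.MP_c9768e_nt.ConvergentsOfRealTuples
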